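import Mathlib

/-!
# Recurrent uniform shift models of rotor walks on `d`-ary trees, `d ≥ 3`
-/

set_option autoImplicit false

open MeasureTheory ProbabilityTheory Filter Topology
open scoped ENNReal

namespace Pool.Agent.Results.MP_c4c6a0_pr.UniformShiftRecurrent

/-- The vertices of the rooted `d`-ary tree: the root is `[]`, the `i`-th child of `v` is
`i :: v`, and the parent of `v` is `v.tail` (so the root is its own parent). -/
abbrev Vtx (d : ℕ) : Type := List (Fin d)

/-- The neighbour `v_r` of `v`: the parent for `r = 0` (the root itself if `v` is the root), and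
a child otherwise. -/
def nbr {d : ℕ} (v : Vtx d) (r : Fin (d + 1)) : Vtx d := Fin.cases v.tail (fun i => i :: v) r

/-- The rotor walk in the configuration `a`, started from the root: its position after `t` steps,
together with the numbers of departures so far from each vertex. Rotor sequences are indexed
from `0`, so the departure from `v` made after `n` earlier ones goes to `v_r`, `r = a v n`. -/
def state {d : ℕ} (a : Vtx d → ℕ → Fin (d + 1)) : ℕ → Vtx d × (Vtx d → ℕ)
  | 0 => ([], fun _ => 0)
  | t + 1 =>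
    (nbr (state a t).1 (a (state a t).1 ((state a t).2 (state a t).1)),
      Function.update (state a t).2 (state a t).1 ((state a t).2 (state a t).1 + 1))

/-- The rotor walk visits the root infinitely many times. -/
def Recurrent {d : ℕ} (a : Vtx d → ℕ → Fin (d + 1)) : Prop :=
  {t : ℕ | (state a t).1 = []}.Infinite

/-- Every direction occurs infinitely often in the rotor sequence. -/
def NonDegenerate {d : ℕ} (a : ℕ → Fin (d + 1)) : Prop :=
  ∀ r : Fin (d + 1), {x : ℕ | a x = r}.Infinite

/-- The law of independent shifts `k_v`, uniform on `{0, …, L-1}`. -/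
noncomputable def shifts (d L : ℕ) [NeZero L] : Measure (Vtx d → Fin L) :=
  Measure.infinitePi (fun _ : Vtx d => (PMF.uniformOfFintype (Fin L)).toMeasure)

section Deterministic

variable {d : ℕ}

/-- number of occurrences of `r` among the first `n` letters -/
def cnt (s : ℕ → Fin (d + 1)) (r : Fin (d + 1)) (n : ℕ) : ℕ := Nat.count (fun x => s x = r) n

lemma cnt_succ (s : ℕ → Fin (d + 1)) (r : Fin (d + 1)) (n : ℕ) :
    cnt s r (n + 1) = cnt s r n + if s n = r then 1 else 0 := Nat.count_succ _ n

lemma cnt_mono (s : ℕ → Fin (d + 1)) (r : Fin (d + 1)) {m n : ℕ} (h : m ≤ n) :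
    cnt s r m ≤ cnt s r n := Nat.count_monotone _ h

/-- number of letters used up to and including the `j`-th zero -/
noncomputable def T (s : ℕ → Fin (d + 1)) (j : ℕ) : ℕ := sInf {n | j ≤ cnt s 0 n}

lemma T_zero (s : ℕ → Fin (d + 1)) : T s 0 = 0 := by
  unfold T; simp

lemma lt_T {s : ℕ → Fin (d + 1)} {j n : ℕ} (h : n < T s j) : cnt s 0 n < j := by
  have := Nat.notMem_of_lt_sInf h
  simpa using this

lemma le_cnt_T {s : ℕ → Fin (d + 1)} (hs : ∀ j, ∃ n, j ≤ cnt s 0 n) (j : ℕ) :
    j ≤ cnt s 0 (T s j) := Nat.sInf_mem (hs j)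

lemma lt_T_of {s : ℕ → Fin (d + 1)} (hs : ∀ j, ∃ n, j ≤ cnt s 0 n) {j n : ℕ}
    (h : cnt s 0 n < j) : n < T s j := by
  by_contra h2
  push Not at h2
  have := cnt_mono s 0 h2
  have := le_cnt_T hs j
  omega

lemma T_succ {s : ℕ → Fin (d + 1)} (hs : ∀ j, ∃ n, j ≤ cnt s 0 n) (j : ℕ) :
    ∃ n, T s (j + 1) = n + 1 ∧ s n = 0 ∧ cnt s 0 n = j := by
  have h1 := le_cnt_T hs (j + 1)
  rcases h : T s (j + 1) with _ | n
  · rw [h] at h1; simp [cnt] at h1
  · have h2 : cnt s 0 n < j + 1 := lt_T (by omega)
    rw [h, cnt_succ] at h1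
    split_ifs at h1 with h3
    · exact ⟨n, rfl, h3, by omega⟩
    · omega

/-- the numbers of visits from the parent, when the root's loop is used `m` times -/
noncomputable def typ (a : Vtx d → ℕ → Fin (d + 1)) (m : ℕ) : Vtx d → ℕ
  | [] => m
  | i :: u => cnt (a u) i.succ (T (a u) (typ a m u))

variable (a : Vtx d → ℕ → Fin (d + 1))

/-- position -/
def X (t : ℕ) : Vtx d := (state a t).1

/-- departures -/
def Dp (t : ℕ) (v : Vtx d) : ℕ := (state a t).2 v

lemma X_zero : X a 0 = [] := rfl

lemma X_succ (t : ℕ) : X a (t + 1) = nbr (X a t) (a (X a t) (Dp a t (X a t))) := rfl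

lemma Dp_zero (v : Vtx d) : Dp a 0 v = 0 := rfl

lemma Dp_succ (t : ℕ) (v : Vtx d) : Dp a (t + 1) v = Dp a t v + if X a t = v then 1 else 0 := by
  unfold Dp X
  rw [state]
  simp only [Function.update_apply]
  by_cases h : v = (state a t).1
  · subst h; simp
  · rw [if_neg h, if_neg (fun h2 => h h2.symm)]; rfl

lemma Dp_eq (t : ℕ) (v : Vtx d) : Dp a t v = Nat.count (fun s => X a s = v) t := by
  induction t with
  | zero => simp [Dp_zero]
  | succ t ih => rw [Dp_succ, Nat.count_succ, ih]

lemma nbr_zero (v : Vtx d) : nbr v 0 = v.tail := rfl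

lemma nbr_succ (v : Vtx d) (i : Fin d) : nbr v i.succ = i :: v := rfl

lemma cnt_Dp_succ (t : ℕ) (w : Vtx d) (c : Fin (d + 1)) :
    cnt (a w) c (Dp a (t + 1) w) = cnt (a w) c (Dp a t w) +
      if X a t = w ∧ a (X a t) (Dp a t (X a t)) = c then 1 else 0 := by
  rw [Dp_succ]
  by_cases h : X a t = w
  · subst h
    simp only [if_true, cnt_succ, true_and]
  · simp [h]

open Classical in
/-- conservation law -/
lemma conserve (t : ℕ) : ∀ (u : Vtx d) (i : Fin d),
    cnt (a u) i.succ (Dp a t u) = cnt (a (i :: u)) 0 (Dp a t (i :: u)) +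
      if (i :: u) <:+ X a t then 1 else 0 := by
  induction t with
  | zero =>
    intro u i
    simp [Dp_zero, cnt, X_zero]
  | succ t ih =>
    intro u i
    rw [cnt_Dp_succ, cnt_Dp_succ, ih u i, X_succ]
    generalize hr : a (X a t) (Dp a t (X a t)) = r
    generalize hv : X a t = v
    induction r using Fin.cases with
    | zero =>
      rw [nbr_zero]
      have h1 : ¬ (v = u ∧ (0 : Fin (d + 1)) = i.succ) := fun h => (Fin.succ_ne_zero i) h.2.symm
      rw [if_neg h1]
      by_cases h2 : v = i :: u
      · subst h2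
        have h3 : ¬ (i :: u) <:+ (i :: u).tail := by
          intro h
          have := h.length_le
          simp at this
        rw [if_neg h3]
        simp
      · have h3 : ((i :: u) <:+ v.tail) ↔ (i :: u) <:+ v := by
          rcases v with _ | ⟨j, v'⟩
          · simp
          · rw [List.tail_cons, List.suffix_cons_iff]
            constructor
            · exact Or.inr
            · rintro (h | h)
              · exact absurd h.symm h2
              · exact h
        simp only [h3, h2, false_and, if_false, add_zero]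
    | succ j =>
      rw [nbr_succ]
      have h1 : ¬ (v = i :: u ∧ (j.succ : Fin (d + 1)) = 0) := fun h => (Fin.succ_ne_zero j) h.2
      rw [if_neg h1]
      by_cases h2 : i :: u = j :: v
      · have h3 : ¬ (i :: u) <:+ v := by
          intro h
          have := h.length_le
          rw [h2] at this
          simp at this
        rw [List.cons.injEq] at h2
        obtain ⟨rfl, rfl⟩ := h2
        rw [if_neg h3]
        simp
      · have h3 : ((i :: u) <:+ (j :: v)) ↔ (i :: u) <:+ v := by
          rw [List.suffix_cons_iff]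
          simp [h2]
        have h4 : ¬ (v = u ∧ j.succ = i.succ) := by
          rintro ⟨rfl, h⟩
          exact h2 (by rw [Fin.succ_inj.mp h])
        rw [if_neg h4]
        simp only [h3, add_zero]

variable {a}

lemma Dp_le (hs : ∀ v j, ∃ n, j ≤ cnt (a v) 0 n) (m t : ℕ)
    (ht : cnt (a []) 0 (Dp a t []) < m) : ∀ v, Dp a t v ≤ T (a v) (typ a m v) := by
  induction t with
  | zero => intro v; simp [Dp_zero]
  | succ t ih =>
    have hm : cnt (a []) 0 (Dp a t []) ≤ cnt (a []) 0 (Dp a (t + 1) []) := by
      apply cnt_mono; rw [Dp_succ]; omega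
    have ih' := ih (lt_of_le_of_lt hm ht)
    intro v
    rw [Dp_succ]
    split_ifs with h
    · have h1 : cnt (a v) 0 (Dp a t v) < typ a m v := by
        rcases v with _ | ⟨i, u⟩
        · exact lt_of_le_of_lt hm ht
        · have h2 := conserve a t u i
          rw [h, if_pos (List.suffix_refl _)] at h2
          have h3 : cnt (a u) i.succ (Dp a t u) ≤ typ a m (i :: u) := by
            rw [typ]; exact cnt_mono _ _ (ih' u)
          omega
      exact lt_T_of (hs v) h1
    · simpa using ih' v

lemma returns (hs : ∀ v j, ∃ n, j ≤ cnt (a v) 0 n) (m : ℕ)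
    (hf : {v | typ a m v ≠ 0}.Finite) : ∃ t, m ≤ cnt (a []) 0 (Dp a t []) := by
  by_contra hcon
  push Not at hcon
  have h1 := fun t => Dp_le hs m t (hcon t)
  set F := hf.toFinset
  have hX : ∀ t, X a t ∈ F := by
    intro t
    by_contra h
    have h2 := h1 (t + 1) (X a t)
    rw [Dp_succ, if_pos rfl] at h2
    have h3 : typ a m (X a t) = 0 := by
      by_contra h4
      exact h (by simpa [F] using h4)
    rw [h3, T_zero] at h2
    omega
  set B := ∑ v ∈ F, T (a v) (typ a m v)
  have h2 : (Finset.range (B + 1)).card = ∑ v ∈ F, ((Finset.range (B + 1)).filter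
      (fun s => X a s = v)).card :=
    Finset.card_eq_sum_card_fiberwise (fun s _ => hX s)
  have h3 : ∑ v ∈ F, ((Finset.range (B + 1)).filter (fun s => X a s = v)).card ≤ B := by
    refine Finset.sum_le_sum fun v _ => ?_
    have := h1 (B + 1) v
    rwa [Dp_eq, Nat.count_eq_card_filter_range] at this
  rw [Finset.card_range] at h2
  omega

lemma recurrent_of (hs : ∀ v j, ∃ n, j ≤ cnt (a v) 0 n)
    (hf : ∀ m, {v | typ a m v ≠ 0}.Finite) : Recurrent a := by
  unfold Recurrent
  by_contra h
  rw [Set.not_infinite] at h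
  obtain ⟨t, ht⟩ := returns hs (h.toFinset.card + 1) (hf _)
  have h1 : cnt (a []) 0 (Dp a t []) ≤ Dp a t [] := Nat.count_le _
  rw [Dp_eq, Nat.count_eq_card_filter_range] at h1
  rw [Dp_eq, Nat.count_eq_card_filter_range] at ht
  have h2 : ((Finset.range t).filter (fun s => X a s = [])).card ≤ h.toFinset.card := by
    apply Finset.card_le_card
    intro s hs'
    simp only [Finset.mem_filter] at hs'
    rw [Set.Finite.mem_toFinset]
    exact hs'.2
  omega

end Deterministic

section Word

variable (d : ℕ)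

/-- one period of the word `0,1,2,0,3,0,4,…,0,d` -/
def wd (p : ℕ) : ℕ := if p = 1 then 1 else if p % 2 = 0 ∧ p ≠ 0 then p / 2 + 1 else 0

/-- the word -/
def word (x : ℕ) : Fin (d + 1) := Fin.ofNat (d + 1) (wd (x % (2 * d - 1)))

variable {d}

lemma word_val (hd : 3 ≤ d) (x : ℕ) : (word d x).val = wd (x % (2 * d - 1)) := by
  unfold word
  rw [Fin.val_ofNat]
  apply Nat.mod_eq_of_lt
  have h := Nat.mod_lt x (show 0 < 2 * d - 1 by omega)
  unfold wd
  split_ifs <;> omega

lemma word_add (x : ℕ) : word d (x + (2 * d - 1)) = word d x := by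
  unfold word; rw [Nat.add_mod_right]

/-- the position of the letter `i + 1` -/
def place (i : ℕ) : ℕ := if i = 0 then 1 else 2 * i

lemma wd_place (p i : ℕ) : wd p = i + 1 ↔ p = place i := by
  unfold wd place
  constructor
  · intro h
    split_ifs at h ⊢ <;> omega
  · intro h
    subst h
    split_ifs <;> omega

lemma word_eq_succ (hd : 3 ≤ d) (x : ℕ) (i : Fin d) :
    word d x = i.succ ↔ x % (2 * d - 1) = place i := by
  rw [Fin.ext_iff, word_val hd, Fin.val_succ, wd_place]

lemma place_lt (hd : 3 ≤ d) (i : Fin d) : place i < 2 * d - 1 := by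
  have := i.isLt
  unfold place
  split_ifs <;> omega

lemma word_eq_zero (hd : 3 ≤ d) (x : ℕ) :
    word d x = 0 ↔ wd (x % (2 * d - 1)) = 0 := by
  rw [Fin.ext_iff, word_val hd]; rfl

lemma count_succ_one (hd : 3 ≤ d) (i : Fin d) :
    ((Finset.range (2 * d - 1)).filter (fun x => word d x = i.succ)).card = 1 := by
  rw [Finset.card_eq_one]
  refine ⟨place i, ?_⟩
  ext x
  simp only [Finset.mem_filter, Finset.mem_range, Finset.mem_singleton]
  rw [word_eq_succ hd]
  constructor
  · rintro ⟨h1, h2⟩
    rwa [Nat.mod_eq_of_lt h1] at h2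
  · rintro rfl
    exact ⟨place_lt hd i, Nat.mod_eq_of_lt (place_lt hd i)⟩

lemma count_zero (hd : 3 ≤ d) :
    ((Finset.range (2 * d - 1)).filter (fun x => word d x = 0)).card = d - 1 := by
  have h := Finset.card_eq_sum_card_fiberwise (s := Finset.range (2 * d - 1))
    (t := (Finset.univ : Finset (Fin (d + 1)))) (f := word d) (fun _ _ => Finset.mem_univ _)
  rw [Fin.sum_univ_succ] at h
  simp only [count_succ_one hd, Finset.sum_const, Finset.card_univ, Fintype.card_fin,
    Finset.card_range, smul_eq_mul] at h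
  omega

/-- the shifted word -/
def sw (d κ : ℕ) (n : ℕ) : Fin (d + 1) := word d (n + κ)

lemma cnt_period (κ : ℕ) (r : Fin (d + 1)) (n : ℕ) :
    cnt (sw d κ) r (n + (2 * d - 1)) = cnt (sw d κ) r n +
      ((Finset.range (2 * d - 1)).filter (fun x => word d x = r)).card := by
  unfold cnt
  rw [Nat.count_add]
  congr 1
  have hper : Function.Periodic (fun x => word d x = r) (2 * d - 1) := by
    intro x
    simp only [word_add]
  have h1 := Nat.filter_Ico_card_eq_of_periodic (n + κ) (2 * d - 1) (fun x => word d x = r) hper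
  rw [← Nat.count_eq_card_filter_range, ← h1, Nat.count_eq_card_filter_range]
  apply Finset.card_bij (fun k _ => n + κ + k)
  · intro k hk
    simp only [Finset.mem_filter, Finset.mem_range, sw] at hk
    simp only [Finset.mem_filter, Finset.mem_Ico]
    refine ⟨by omega, ?_⟩
    rw [← hk.2]
    congr 1
    ring
  · intro x _ y _ h
    omega
  · intro y hy
    simp only [Finset.mem_filter, Finset.mem_Ico] at hy
    refine ⟨y - (n + κ), ?_, by omega⟩
    simp only [Finset.mem_filter, Finset.mem_range, sw]
    refine ⟨by omega, ?_⟩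
    rw [← hy.2]
    congr 1
    omega

lemma cnt_unbdd (hd : 3 ≤ d) (κ j : ℕ) : ∃ n, j ≤ cnt (sw d κ) 0 n := by
  induction j with
  | zero => exact ⟨0, Nat.zero_le _⟩
  | succ j ih =>
    obtain ⟨n, hn⟩ := ih
    refine ⟨n + (2 * d - 1), ?_⟩
    rw [cnt_period, count_zero hd]
    omega

lemma cnt_main (hd : 3 ≤ d) (κ : ℕ) (i : Fin d) (n : ℕ) :
    2 * cnt (sw d κ) i.succ n ≤ 2 + cnt (sw d κ) 0 n := by
  induction n using Nat.strong_induction_on with
  | _ n ih =>
    by_cases hn : n ≤ 2 * d - 1
    · have h1 := cnt_mono (sw d κ) i.succ (show n ≤ 0 + (2 * d - 1) by omega)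
      rw [cnt_period, count_succ_one hd] at h1
      have h2 : cnt (sw d κ) i.succ 0 = 0 := by simp [cnt]
      omega
    · obtain ⟨n', rfl⟩ : ∃ n', n = n' + (2 * d - 1) := ⟨n - (2 * d - 1), by omega⟩
      have h1 := ih n' (by omega)
      rw [cnt_period, cnt_period, count_succ_one hd, count_zero hd]
      omega

lemma cnt_T_le (hd : 3 ≤ d) (κ : ℕ) (i : Fin d) (j : ℕ) :
    2 * cnt (sw d κ) i.succ (T (sw d κ) (j + 1)) ≤ 2 + j := by
  obtain ⟨n, h1, h2, h3⟩ := T_succ (cnt_unbdd hd κ) j
  rw [h1, cnt_succ, h2, if_neg (Fin.succ_ne_zero i).symm]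
  have := cnt_main hd κ i n
  omega

/-- the child `i` is visited from a vertex visited once, for the shift `κ` -/
def hit (d : ℕ) (i : Fin d) (κ : ℕ) : Prop := 1 ≤ cnt (sw d κ) i.succ (T (sw d κ) 1)

lemma hit_spec {i : Fin d} {κ : ℕ} (h : hit d i κ) :
    ∃ n, sw d κ n = i.succ ∧ ∀ n' ≤ n, sw d κ n' ≠ 0 := by
  unfold hit cnt at h
  have h0 : (Nat.count (fun x => sw d κ x = i.succ) (T (sw d κ) 1)) ≠ 0 := by omega
  rw [Nat.count_eq_card_filter_range, Finset.card_ne_zero] at h0
  obtain ⟨n, hn⟩ := h0
  simp only [Finset.mem_filter, Finset.mem_range] at hn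
  refine ⟨n, hn.2, fun n' hn' h2 => ?_⟩
  have h3 : cnt (sw d κ) 0 n = 0 := by have := lt_T hn.1; omega
  rcases Nat.lt_or_ge n' n with h4 | h4
  · have h5 := cnt_mono (sw d κ) 0 (show n' + 1 ≤ n by omega)
    rw [cnt_succ, if_pos h2] at h5
    omega
  · have : n' = n := by omega
    subst this
    rw [hn.2] at h2
    exact Fin.succ_ne_zero i h2

lemma word_small (hd : 3 ≤ d) {x : ℕ} (hx : x < 2 * d - 1) : word d x = 0 ↔ wd x = 0 := by
  rw [word_eq_zero hd, Nat.mod_eq_of_lt hx]

lemma word_L (hd : 3 ≤ d) : word d (2 * d - 1) = 0 := by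
  rw [word_eq_zero hd, Nat.mod_self]; rfl

open Classical in
lemma hit_card (hd : 3 ≤ d) {κ : ℕ} (hκ : κ < 2 * d - 1) :
    ((Finset.univ : Finset (Fin d)).filter (fun i => hit d i κ)).card ≤
      if κ = 0 ∨ κ = 3 then 0 else if κ = 1 then 2 else 1 := by
  split_ifs with h1 h2
  · rw [Nat.le_zero, Finset.card_eq_zero, Finset.filter_eq_empty_iff]
    intro i _ hi
    obtain ⟨n, _, hn⟩ := hit_spec hi
    apply hn 0 (Nat.zero_le _)
    unfold sw
    rw [word_small hd (by omega)]
    unfold wd
    rcases h1 with h | h <;> subst h <;> simp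
  · subst h2
    have h3 : ((Finset.univ : Finset (Fin d)).filter (fun i => hit d i 1)) ⊆
        {⟨0, by omega⟩, ⟨1, by omega⟩} := by
      intro i hi
      simp only [Finset.mem_filter, Finset.mem_univ, true_and] at hi
      obtain ⟨n, hn1, hn2⟩ := hit_spec hi
      have h4 : n < 2 := by
        by_contra h5
        apply hn2 2 (by omega)
        unfold sw
        rw [word_small hd (by omega)]
        unfold wd; simp
      unfold sw at hn1
      rw [word_eq_succ hd, Nat.mod_eq_of_lt (by omega)] at hn1
      unfold place at hn1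
      simp only [Finset.mem_insert, Finset.mem_singleton, Fin.ext_iff]
      split_ifs at hn1 <;> omega
    refine (Finset.card_le_card h3).trans ?_
    exact Finset.card_le_two
  · rw [Finset.card_le_one]
    intro i hi j hj
    simp only [Finset.mem_filter, Finset.mem_univ, true_and] at hi hj
    have key : ∀ i : Fin d, hit d i κ → word d κ = i.succ := by
      intro i hi
      obtain ⟨n, hn1, hn2⟩ := hit_spec hi
      rcases Nat.eq_zero_or_pos n with h | h
      · subst h; simpa [sw] using hn1
      · exfalso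
        have h5 := hn2 0 (by omega)
        have h6 := hn2 1 (by omega)
        unfold sw at h5 h6
        rw [zero_add, Ne, word_small hd hκ] at h5
        rcases Nat.lt_or_ge (1 + κ) (2 * d - 1) with h7 | h7
        · rw [Ne, word_small hd h7] at h6
          unfold wd at h5 h6
          split_ifs at h5 h6 <;> omega
        · have h8 : 1 + κ = 2 * d - 1 := by omega
          rw [h8] at h6
          exact h6 (word_L hd)
    have h3 := key i hi
    have h4 := key j hj
    rw [h3] at h4
    exact Fin.succ_inj.mp h4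

end Word

section Prob

variable {d L : ℕ}

/-- the sigma-algebra of a set of coordinates -/
abbrev sig (L : ℕ) (S : Set (Vtx d)) : MeasurableSpace (Vtx d → Fin L) :=
  ⨆ p ∈ S, MeasurableSpace.comap (fun ω : Vtx d → Fin L => ω p) inferInstance

lemma meas_sig {S : Set (Vtx d)} {p : Vtx d} (hp : p ∈ S) :
    Measurable[sig L S] (fun ω : Vtx d → Fin L => ω p) := by
  refine Measurable.mono (comap_measurable _) ?_ le_rfl
  exact le_iSup₂_of_le p hp le_rfl

lemma sig_le (S : Set (Vtx d)) : sig L S ≤ (inferInstance : MeasurableSpace (Vtx d → Fin L)) := by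
  refine iSup₂_le fun p _ => ?_
  exact (measurable_pi_apply p).comap_le

lemma sig_indep [NeZero L] {S T : Set (Vtx d)} (h : Disjoint S T) :
    Indep (sig L S) (sig L T) (shifts d L) := by
  have hi : iIndepFun (fun (p : Vtx d) (ω : Vtx d → Fin L) => ω p) (shifts d L) := by
    have := iIndepFun_infinitePi (P := fun _ : Vtx d => (PMF.uniformOfFintype (Fin L)).toMeasure)
      (X := fun _ t => t) (fun _ => measurable_id)
    exact this
  exact indep_iSup_of_disjoint (fun p => (measurable_pi_apply p).comap_le) hi.iIndep h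

/-- number of visits from the parent, in the uniform shift model -/
noncomputable def tp (k : Vtx d → Fin L) (m : ℕ) (v : Vtx d) : ℕ :=
  typ (fun v n => word d (n + (k v : ℕ))) m v

lemma tp_cons (k : Vtx d → Fin L) (m : ℕ) (i : Fin d) (u : Vtx d) :
    tp k m (i :: u) = cnt (sw d (k u)) i.succ (T (sw d (k u)) (tp k m u)) := rfl

lemma tp_cons_zero {k : Vtx d → Fin L} {m : ℕ} {u : Vtx d} (h : tp k m u = 0) (i : Fin d) :
    tp k m (i :: u) = 0 := by
  rw [tp_cons, h, T_zero]; simp [cnt]

lemma tp_bound (hd : 3 ≤ d) (k : Vtx d → Fin L) (m : ℕ) (v : Vtx d) :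
    tp k m v ≤ max 1 (m - v.length) := by
  induction v with
  | nil => simp [tp, typ]
  | cons i u ih =>
    rcases h : tp k m u with _ | j
    · rw [tp_cons_zero h]; exact Nat.zero_le _
    · have h1 := cnt_T_le hd (k u) i j
      rw [tp_cons, h]
      rw [h] at ih
      simp only [List.length_cons]
      omega

lemma meas_tp (hL : L ≠ 0) (m : ℕ) (v : Vtx d) :
    Measurable[sig L {w : Vtx d | w.length < v.length}] (fun k : Vtx d → Fin L => tp k m v) := by
  have : NeZero L := ⟨hL⟩
  induction v with
  | nil => simp only [tp, typ]; exact measurable_const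
  | cons i u ih =>
    simp only [tp_cons]
    have h1 : Measurable[sig L {w : Vtx d | w.length < (i :: u).length}]
        (fun k : Vtx d → Fin L => tp k m u) := by
      refine Measurable.mono ih ?_ le_rfl
      refine biSup_mono fun w hw => ?_
      simp only [Set.mem_ofPred_eq, List.length_cons] at hw ⊢
      omega
    have h2 : Measurable[sig L {w : Vtx d | w.length < (i :: u).length}]
        (fun k : Vtx d → Fin L => k u) := meas_sig (by simp)
    have h3 : Measurable (fun p : Fin L × ℕ => cnt (sw d p.1) i.succ (T (sw d p.1) p.2)) :=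
      measurable_of_countable _
    exact h3.comp (h2.prodMk h1)

/-- vertices of generation `n` -/
def lists (d : ℕ) : ℕ → Finset (Vtx d)
  | 0 => {[]}
  | n + 1 => ((Finset.univ : Finset (Fin d)) ×ˢ lists d n).map
      ⟨fun p => p.1 :: p.2, fun p q h => by
        rw [List.cons.injEq] at h; exact Prod.ext h.1 h.2⟩

lemma mem_lists (n : ℕ) : ∀ v : Vtx d, v ∈ lists d n ↔ v.length = n := by
  induction n with
  | zero => intro v; simp [lists]
  | succ n ih =>
    intro v
    rcases v with _ | ⟨i, u⟩
    · simp [lists]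
    · simp [lists, ih]

lemma sum_lists_succ (n : ℕ) (f : Vtx d → ℝ≥0∞) :
    ∑ v ∈ lists d (n + 1), f v = ∑ u ∈ lists d n, ∑ i : Fin d, f (i :: u) := by
  rw [lists, Finset.sum_map, Finset.sum_product_right]
  rfl

open Classical in
lemma hit_prob (hd : 3 ≤ d) [NeZero (2 * d - 1)] (u : Vtx d) :
    ∑ i : Fin d, shifts d (2 * d - 1) {k | hit d i (k u)} ≤
      ((2 * d - 2 : ℕ) : ℝ≥0∞) / ((2 * d - 1 : ℕ) : ℝ≥0∞) := by
  have h1 : ∀ i : Fin d, shifts d (2 * d - 1) {k | hit d i (k u)} =
      (((Finset.univ : Finset (Fin (2 * d - 1))).filter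
        (fun κ : Fin (2 * d - 1) => hit d i (κ : ℕ))).card : ℝ≥0∞) /
        ((2 * d - 1 : ℕ) : ℝ≥0∞) := by
    intro i
    have h2 := measurePreserving_eval_infinitePi
      (fun _ : Vtx d => (PMF.uniformOfFintype (Fin (2 * d - 1))).toMeasure) u
    have h3 : {k : Vtx d → Fin (2 * d - 1) | hit d i (k u)} =
        (Function.eval u) ⁻¹' {κ : Fin (2 * d - 1) | hit d i κ} := rfl
    unfold shifts
    rw [h3, h2.measure_preimage (MeasurableSet.of_discrete).nullMeasurableSet,
      PMF.toMeasure_uniformOfFintype_apply _ MeasurableSet.of_discrete, Fintype.card_fin]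
    congr 2
    rw [Fintype.card_subtype]
    congr
  simp only [h1]
  simp only [div_eq_mul_inv]
  rw [← Finset.sum_mul, ← Nat.cast_sum]
  gcongr
  have h4 : ∑ i : Fin d, ((Finset.univ : Finset (Fin (2 * d - 1))).filter
      (fun κ : Fin (2 * d - 1) => hit d i (κ : ℕ))).card = ∑ κ : Fin (2 * d - 1),
        ((Finset.univ : Finset (Fin d)).filter (fun i => hit d i κ)).card := by
    simp only [Finset.card_filter]
    exact Finset.sum_comm
  rw [h4]
  calc ∑ κ : Fin (2 * d - 1), ((Finset.univ : Finset (Fin d)).filter (fun i => hit d i κ)).card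
      ≤ ∑ κ : Fin (2 * d - 1), if (κ : ℕ) = 0 ∨ (κ : ℕ) = 3 then 0 else
          if (κ : ℕ) = 1 then 2 else 1 := Finset.sum_le_sum fun κ _ => hit_card hd κ.isLt
    _ = ∑ κ ∈ Finset.range (2 * d - 1), if κ = 0 ∨ κ = 3 then 0 else if κ = 1 then 2 else 1 :=
        Fin.sum_univ_eq_sum_range (fun κ => if κ = 0 ∨ κ = 3 then 0 else
          if κ = 1 then 2 else 1) (2 * d - 1)
    _ = 2 * d - 2 := by
        obtain ⟨e, he⟩ : ∃ e, 2 * d - 1 = e + 4 := ⟨2 * d - 5, by omega⟩
        rw [he]
        have h5 : ∀ e : ℕ, ∑ κ ∈ Finset.range (e + 4), (if κ = 0 ∨ κ = 3 then 0 else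
            if κ = 1 then 2 else 1) = e + 3 := by
          intro e
          induction e with
          | zero => decide
          | succ e ih =>
            rw [show e + 1 + 4 = (e + 4) + 1 by ring, Finset.sum_range_succ, ih]
            rw [if_neg (by omega), if_neg (by omega)]
        rw [h5]
        omega

/-- expected number of visited vertices of generation `n` -/
noncomputable def S (d : ℕ) [NeZero (2 * d - 1)] (m n : ℕ) : ℝ≥0∞ :=
  ∑ v ∈ lists d n, shifts d (2 * d - 1) {k | 1 ≤ tp k m v}

instance [NeZero L] : IsProbabilityMeasure (shifts d L) := by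
  unfold shifts; infer_instance

lemma S_ne_top [NeZero (2 * d - 1)] (m n : ℕ) : S d m n ≠ ⊤ := by
  unfold S
  exact ENNReal.sum_ne_top.mpr fun v _ => measure_ne_top _ _

lemma S_succ (hd : 3 ≤ d) [NeZero (2 * d - 1)] {m n : ℕ} (hmn : m ≤ n) :
    S d m (n + 1) ≤ S d m n * (((2 * d - 2 : ℕ) : ℝ≥0∞) / ((2 * d - 1 : ℕ) : ℝ≥0∞)) := by
  unfold S
  rw [sum_lists_succ, Finset.sum_mul]
  refine Finset.sum_le_sum fun u hu => ?_
  rw [mem_lists] at hu
  calc ∑ i : Fin d, shifts d (2 * d - 1) {k | 1 ≤ tp k m (i :: u)}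
      ≤ ∑ i : Fin d, shifts d (2 * d - 1) {k | 1 ≤ tp k m u} *
          shifts d (2 * d - 1) {k | hit d i (k u)} := by
        refine Finset.sum_le_sum fun i _ => ?_
        have hsub : {k : Vtx d → Fin (2 * d - 1) | 1 ≤ tp k m (i :: u)} ⊆
            {k | 1 ≤ tp k m u} ∩ {k | hit d i (k u)} := by
          intro k hk
          simp only [Set.mem_ofPred_eq] at hk
          have h1 : tp k m u ≠ 0 := by
            intro h
            rw [tp_cons_zero h] at hk
            omega
          have h2 := tp_bound hd k m u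
          have h3 : tp k m u = 1 := by omega
          refine ⟨by simp only [Set.mem_ofPred_eq]; omega, ?_⟩
          rw [tp_cons, h3] at hk
          exact hk
        refine (measure_mono hsub).trans (le_of_eq ?_)
        have hdis : Disjoint ({w : Vtx d | w.length < u.length}) {u} := by
          rw [Set.disjoint_singleton_right]; simp
        have hind := sig_indep (L := 2 * d - 1) hdis
        rw [ProbabilityTheory.Indep_iff] at hind
        refine hind _ _ ?_ ?_
        · have := meas_tp (d := d) (L := 2 * d - 1) (by omega) m u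
          exact this (measurableSet_Ici (a := 1))
        · have h4 : Measurable[sig (2 * d - 1) {u}] (fun k : Vtx d → Fin (2 * d - 1) => k u) :=
            meas_sig rfl
          exact h4 (MeasurableSet.of_discrete (s := {κ : Fin (2 * d - 1) | hit d i κ}))
    _ = shifts d (2 * d - 1) {k | 1 ≤ tp k m u} *
          ∑ i : Fin d, shifts d (2 * d - 1) {k | hit d i (k u)} := by
        rw [Finset.mul_sum]
    _ ≤ _ := by gcongr; exact hit_prob hd u

lemma S_tendsto (hd : 3 ≤ d) [NeZero (2 * d - 1)] (m : ℕ) :
    Tendsto (fun n => S d m (m + n)) atTop (𝓝 0) := by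
  have h1 : ∀ n, S d m (m + n) ≤
      S d m m * (((2 * d - 2 : ℕ) : ℝ≥0∞) / ((2 * d - 1 : ℕ) : ℝ≥0∞)) ^ n := by
    intro n
    induction n with
    | zero => simp
    | succ n ih =>
      rw [← add_assoc]
      refine (S_succ hd (by omega)).trans ?_
      rw [pow_succ, ← mul_assoc]
      gcongr
  have h2 : (((2 * d - 2 : ℕ) : ℝ≥0∞) / ((2 * d - 1 : ℕ) : ℝ≥0∞)) < 1 := by
    have h4 : ((2 * d - 1 : ℕ) : ℝ≥0∞) ≠ 0 := by
      rw [Ne, Nat.cast_eq_zero]; omega
    rw [ENNReal.div_lt_iff (Or.inl h4) (Or.inl (ENNReal.natCast_ne_top _)), one_mul, Nat.cast_lt]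
    omega
  have h3 := ENNReal.Tendsto.const_mul (a := S d m m)
    (ENNReal.tendsto_pow_atTop_nhds_zero_of_lt_one h2) (Or.inr (S_ne_top m m))
  rw [mul_zero] at h3
  exact tendsto_of_tendsto_of_tendsto_of_le_of_le tendsto_const_nhds h3 (fun _ => bot_le) h1

lemma ae_extinct (hd : 3 ≤ d) [NeZero (2 * d - 1)] (m : ℕ) :
    ∀ᵐ k ∂(shifts d (2 * d - 1)), ∃ n, ∀ v ∈ lists d n, tp k m v = 0 := by
  rw [ae_iff]
  have h1 : ∀ n, shifts d (2 * d - 1) {k | ¬ ∃ n, ∀ v ∈ lists d n, tp k m v = 0} ≤
      S d m (m + n) := by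
    intro n
    have hsub : {k : Vtx d → Fin (2 * d - 1) | ¬ ∃ n, ∀ v ∈ lists d n, tp k m v = 0} ⊆
        ⋃ v ∈ lists d (m + n), {k | 1 ≤ tp k m v} := by
      intro k hk
      simp only [Set.mem_ofPred_eq] at hk
      push Not at hk
      obtain ⟨v, hv, hv2⟩ := hk (m + n)
      simp only [Set.mem_iUnion, Set.mem_ofPred_eq, exists_prop]
      exact ⟨v, hv, by omega⟩
    exact (measure_mono hsub).trans (measure_biUnion_finset_le _ _)
  exact le_antisymm (ge_of_tendsto' (S_tendsto hd m) h1) bot_le

lemma finite_of (k : Vtx d → Fin L) (m n : ℕ) (h : ∀ v ∈ lists d n, tp k m v = 0) :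
    {v | typ (fun v n => word d (n + (k v : ℕ))) m v ≠ 0}.Finite := by
  refine (List.finite_length_lt (Fin d) n).subset ?_
  intro v hv
  simp only [Set.mem_ofPred_eq] at hv ⊢
  by_contra hlen
  push Not at hlen
  apply hv
  have key : ∀ v : Vtx d, n ≤ v.length → tp k m v = 0 := by
    intro v
    induction v with
    | nil =>
      intro h1
      apply h
      rw [mem_lists]
      simp at h1 ⊢
      omega
    | cons i u ih =>
      intro h1
      rcases Nat.lt_or_ge u.length n with h2 | h2
      · apply h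
        rw [mem_lists]
        simp only [List.length_cons] at h1 ⊢
        omega
      · exact tp_cons_zero (ih h2) i
  exact key v hlen

lemma nondeg (hd : 3 ≤ d) : NonDegenerate (word d) := by
  intro r
  have hr : ∃ x < 2 * d - 1, word d x = r := by
    induction r using Fin.cases with
    | zero => exact ⟨0, by omega, by rw [word_small hd (by omega)]; rfl⟩
    | succ i =>
      exact ⟨place i, place_lt hd i, by rw [word_eq_succ hd, Nat.mod_eq_of_lt (place_lt hd i)]⟩
  obtain ⟨x, _, hx⟩ := hr
  have hper : ∀ n : ℕ, word d (x + n * (2 * d - 1)) = r := by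
    intro n
    induction n with
    | zero => simpa using hx
    | succ n ih => rw [add_one_mul, ← add_assoc, word_add, ih]
  refine Set.infinite_of_injective_forall_mem (f := fun n : ℕ => x + n * (2 * d - 1)) ?_ hper
  intro n n' h
  simp only [add_right_inj] at h
  exact Nat.eq_of_mul_eq_mul_right (by omega) h

end Prob

/-- For every `d ≥ 3` there is a non-degenerate periodic rotor sequence on the `d`-ary tree, with
each child occurring once per period and the parent less than `d` times per period (so that the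
random walk with the same frequencies is transient), such that the walk in the uniform shift model
is almost surely recurrent. -/
theorem result : ∀ d : ℕ, 3 ≤ d → ∃ (L : ℕ) (_ : NeZero L) (a : ℕ → Fin (d + 1)),
    NonDegenerate a ∧ (∀ x, a (x + L) = a x) ∧
    (∀ i : Fin d, ((Finset.range L).filter (fun x => a x = i.succ)).card = 1) ∧
    ((Finset.range L).filter (fun x => a x = 0)).card < d ∧
    ∀ᵐ k ∂(shifts d L), Recurrent (fun v n => a (n + (k v : ℕ))) := by
  intro d hd
  have : NeZero (2 * d - 1) := ⟨by omega⟩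
  refine ⟨2 * d - 1, this, word d, nondeg hd, word_add, count_succ_one hd, ?_, ?_⟩
  · rw [count_zero hd]; omega
  · have h := ae_all_iff.mpr (fun m => ae_extinct hd m)
    filter_upwards [h] with k hk
    refine recurrent_of (fun v j => cnt_unbdd hd (k v) j) (fun m => ?_)
    obtain ⟨n, hn⟩ := hk m
    exact finite_of k m n hn

end Pool.Agent.Results.MP_c4c6a0_pr.UniformShiftRecurrent
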